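import Pool.Agent.N437.SPC.Stm

set_option autoImplicit false

namespace Pool.Agent.N687.SPCMain

open Finset Pool.Agent.N437.SPC
open scoped Pointwise

lemma cnt_le (f : ℝ → ℝ → ℝ) (y : ℝ) (R W : Finset ℝ) (hinj : Set.InjOn (f y) R) :
    cnt f y R W ≤ W.card := by
  unfold cnt
  refine Finset.card_le_card_of_injOn (f y) ?_ ?_
  · intro u hu
    have h := (Finset.mem_filter.1 (Finset.mem_coe.1 hu)).2
    exact h
  · intro u hu v hv huv
    exact hinj (Finset.mem_coe.2 (Finset.mem_filter.1 (Finset.mem_coe.1 hu)).1)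
      (Finset.mem_coe.2 (Finset.mem_filter.1 (Finset.mem_coe.1 hv)).1) huv

lemma cnt_H (f : ℝ → ℝ → ℝ) (y : ℝ) (Y H W : Finset ℝ) (hH : H ⊆ Y)
    (h1 : 97 * Y.card ≤ 100 * cnt f y Y W) (h2 : 98 * Y.card ≤ 100 * H.card) :
    9 * H.card ≤ 10 * cnt f y H W := by
  have h3 : cnt f y Y W ≤ cnt f y H W + (Y \ H).card := by
    unfold cnt
    refine le_trans (Finset.card_le_card ?_) (Finset.card_union_le _ _)
    intro u hu
    rw [Finset.mem_filter] at hu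
    rw [Finset.mem_union, Finset.mem_filter, Finset.mem_sdiff]
    by_cases h : u ∈ H
    · exact Or.inl ⟨h, hu.2⟩
    · exact Or.inr ⟨hu.1, h⟩
  have h4 : (Y \ H).card + H.card = Y.card := Finset.card_sdiff_add_card_eq_card hH
  omega

lemma gd_subset (f : ℝ → ℝ → ℝ) (Y W : Finset ℝ) : gd f Y W ⊆ Y := Finset.filter_subset _ _

lemma mem_gd {f : ℝ → ℝ → ℝ} {Y W : Finset ℝ} {y : ℝ} (h : y ∈ gd f Y W) :
    97 * Y.card ≤ 100 * cnt f y Y W := (Finset.mem_filter.1 h).2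

/-- The combinatorial part: the container is small. -/
lemma small (h3 : S_EL) (h4 : S_SO) (Y P Q : Finset ℝ) (h0 : (0 : ℝ) ∉ Y) (hY : Y.Nonempty)
    (hP : 99 * Y.card ≤ 100 * (gd (fun a b => a + b) Y P).card)
    (hQ : 99 * Y.card ≤ 100 * (gd (fun a b => a * b) Y Q).card) :
    ∃ H : ℕ, 98 * Y.card ≤ 100 * H ∧ H ≤ Y.card ∧ 97 * Y.card ≤ 100 * P.card ∧
      H ^ 5 ≤ 1000 * P.card ^ 2 * Q.card ^ 2 ∧
      H ^ 14 ≤ 10 ^ 14 * (Nat.log 2 H + 1) ^ 4 * P.card ^ 8 * Q.card ^ 3 := by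
  set G1 := gd (fun a b => a + b) Y P with hG1
  set G2 := gd (fun a b => a * b) Y Q with hG2
  have hs1 : G1 ⊆ Y := gd_subset _ _ _
  have hs2 : G2 ⊆ Y := gd_subset _ _ _
  set H := G1 ∩ G2 with hH
  have hHY : H ⊆ Y := Finset.inter_subset_left.trans hs1
  have hc : (G1 ∪ G2).card + H.card = G1.card + G2.card := Finset.card_union_add_card_inter _ _
  have hu : (G1 ∪ G2).card ≤ Y.card := Finset.card_le_card (Finset.union_subset hs1 hs2)
  have hH98 : 98 * Y.card ≤ 100 * H.card := by omega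
  have hH0 : (0 : ℝ) ∉ H := fun h => h0 (hHY h)
  have hp : ∀ y ∈ H, 9 * H.card ≤ 10 * cnt (fun a b => a + b) y H P := fun y hy =>
    cnt_H _ y Y H P hHY (mem_gd (Finset.mem_inter.1 hy).1) hH98
  have hq : ∀ y ∈ H, 9 * H.card ≤ 10 * cnt (fun a b => a * b) y H Q := fun y hy =>
    cnt_H _ y Y H Q hHY (mem_gd (Finset.mem_inter.1 hy).2) hH98
  have hYc : 0 < Y.card := Finset.card_pos.2 hY
  have hne : 0 < G1.card := by omega
  obtain ⟨y, hy⟩ := Finset.card_pos.1 hne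
  have hc2 : cnt (fun a b => a + b) y Y P ≤ P.card :=
    cnt_le _ y Y P (fun a _ b _ hab => by simpa using hab)
  have hc3 := mem_gd hy
  refine ⟨H.card, hH98, Finset.card_le_card hHY, by omega, h3 H P Q hH0 hp hq, h4 H P Q hH0 hp hq⟩

/-- Numerical form. -/
lemma bdM (n y H p q m₁ m₂ : ℕ) (hn : 2 ≤ n) (h1 : 98 * y ≤ 100 * H) (h2 : H ≤ y)
    (h3 : 97 * y ≤ 100 * p) (hp : p ≤ m₁) (hq : q ≤ m₂) (hpn : p ≤ n ^ 2)
    (h5 : H ^ 5 ≤ 1000 * p ^ 2 * q ^ 2)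
    (h6 : H ^ 14 ≤ 10 ^ 14 * (Nat.log 2 H + 1) ^ 4 * p ^ 8 * q ^ 3) :
    (y : ℝ) ≤ 40 * min (((m₁ : ℝ) * m₂) ^ (2 / 5 : ℝ))
        (((m₁ : ℝ) ^ 8 * (m₂ : ℝ) ^ 3 * Real.log n ^ 4) ^ (1 / 14 : ℝ)) := by
  have hyH : (y : ℝ) ≤ 2 * H := by
    have : y ≤ 2 * H := by omega
    exact_mod_cast this
  have hn' : (2 : ℝ) ≤ n := by exact_mod_cast hn
  have hL2 : Real.log 2 ≤ Real.log n := Real.log_le_log (by norm_num) hn'
  have hl2 : (0.69 : ℝ) < Real.log 2 := by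
    have := Real.log_two_gt_d9
    linarith
  have hA : (H : ℝ) ≤ 4 * ((m₁ : ℝ) * m₂) ^ (2 / 5 : ℝ) := by
    have hm : (0 : ℝ) ≤ (m₁ : ℝ) * m₂ := by positivity
    have e1 : (((m₁ : ℝ) * m₂) ^ (2 / 5 : ℝ)) ^ 5 = ((m₁ : ℝ) * m₂) ^ 2 := by
      rw [← Real.rpow_natCast, ← Real.rpow_mul hm, ← Real.rpow_natCast]
      norm_num
    have e2 : (H : ℝ) ^ 5 ≤ (4 * ((m₁ : ℝ) * m₂) ^ (2 / 5 : ℝ)) ^ 5 := by
      rw [mul_pow, e1]
      have e3 : (H : ℝ) ^ 5 ≤ 1000 * (p : ℝ) ^ 2 * (q : ℝ) ^ 2 := by exact_mod_cast h5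
      have hp' : (p : ℝ) ≤ m₁ := by exact_mod_cast hp
      have hq' : (q : ℝ) ≤ m₂ := by exact_mod_cast hq
      have e4 : (p : ℝ) ^ 2 * (q : ℝ) ^ 2 ≤ (m₁ : ℝ) ^ 2 * (m₂ : ℝ) ^ 2 := by gcongr
      have e5 : (0 : ℝ) ≤ (m₁ : ℝ) ^ 2 * (m₂ : ℝ) ^ 2 := by positivity
      nlinarith
    exact (pow_le_pow_iff_left₀ (by positivity) (by positivity) (by norm_num)).1 e2
  have hlog : (Nat.log 2 H : ℝ) + 1 ≤ 10 * Real.log n := by
    rcases Nat.eq_zero_or_pos H with h0 | h0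
    · rw [h0]
      simp
      linarith
    · have g1 : (2 : ℝ) ^ (Nat.log 2 H) ≤ H := by
        exact_mod_cast Nat.pow_log_le_self 2 h0.ne'
      have g2 : (H : ℝ) ≤ 2 * (n : ℝ) ^ 2 := by
        have : H ≤ 2 * n ^ 2 := by omega
        exact_mod_cast this
      have g3 : (Nat.log 2 H : ℝ) * Real.log 2 ≤ Real.log 2 + 2 * Real.log n := by
        have := Real.log_le_log (by positivity) (g1.trans g2)
        rw [Real.log_pow, Real.log_mul (by norm_num) (by positivity), Real.log_pow] at this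
        push_cast at this
        exact this
      nlinarith
  have hB : (H : ℝ) ≤ 20 * ((m₁ : ℝ) ^ 8 * (m₂ : ℝ) ^ 3 * Real.log n ^ 4) ^ (1 / 14 : ℝ) := by
    have hL0 : 0 ≤ Real.log n := by linarith
    have hm : (0 : ℝ) ≤ (m₁ : ℝ) ^ 8 * (m₂ : ℝ) ^ 3 * Real.log n ^ 4 := by positivity
    have e1 : (((m₁ : ℝ) ^ 8 * (m₂ : ℝ) ^ 3 * Real.log n ^ 4) ^ (1 / 14 : ℝ)) ^ 14 =
        (m₁ : ℝ) ^ 8 * (m₂ : ℝ) ^ 3 * Real.log n ^ 4 := by
      rw [← Real.rpow_natCast, ← Real.rpow_mul hm]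
      norm_num
    have e2 : (H : ℝ) ^ 14 ≤
        (20 * ((m₁ : ℝ) ^ 8 * (m₂ : ℝ) ^ 3 * Real.log n ^ 4) ^ (1 / 14 : ℝ)) ^ 14 := by
      rw [mul_pow, e1]
      have e3 : (H : ℝ) ^ 14 ≤ 10 ^ 14 * ((Nat.log 2 H : ℝ) + 1) ^ 4 * (p : ℝ) ^ 8 *
          (q : ℝ) ^ 3 := by exact_mod_cast h6
      have hp' : (p : ℝ) ≤ m₁ := by exact_mod_cast hp
      have hq' : (q : ℝ) ≤ m₂ := by exact_mod_cast hq
      have e4 : 10 ^ 14 * ((Nat.log 2 H : ℝ) + 1) ^ 4 * (p : ℝ) ^ 8 * (q : ℝ) ^ 3 ≤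
          10 ^ 14 * (10 * Real.log n) ^ 4 * (m₁ : ℝ) ^ 8 * (m₂ : ℝ) ^ 3 := by gcongr
      have e5 : 10 ^ 14 * (10 * Real.log n) ^ 4 * (m₁ : ℝ) ^ 8 * (m₂ : ℝ) ^ 3 =
          10 ^ 18 * ((m₁ : ℝ) ^ 8 * (m₂ : ℝ) ^ 3 * Real.log n ^ 4) := by ring
      nlinarith
    exact (pow_le_pow_iff_left₀ (by positivity) (by positivity) (by norm_num)).1 e2
  rcases le_total (((m₁ : ℝ) * m₂) ^ (2 / 5 : ℝ))
    (((m₁ : ℝ) ^ 8 * (m₂ : ℝ) ^ 3 * Real.log n ^ 4) ^ (1 / 14 : ℝ)) with h | h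
  · rw [min_eq_left h]
    have : (0 : ℝ) ≤ ((m₁ : ℝ) * m₂) ^ (2 / 5 : ℝ) := by positivity
    linarith
  · rw [min_eq_right h]
    linarith

/-- The lower-order factors. -/
lemma exp_part (n D x F : ℕ) (c : ℝ) (hc : 0 < c) (hc1 : c ≤ 1 / 2) (hn : 3 ≤ n)
    (h7 : 7 ≤ (n : ℝ) ^ (c / 2)) (hD : (D : ℝ) ≤ (n : ℝ) ^ (1 - c) + 1)
    (hx : Real.log x ≤ (n : ℝ) ^ (c / 2)) (hF : (F : ℝ) ≤ Real.exp ((n : ℝ) ^ (1 - c))) :
    (F : ℝ) * ((x : ℝ) + 1) ^ D * (n + 1) ≤ Real.exp n := by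
  have hn1 : (1 : ℝ) ≤ n := by
    have : (3 : ℝ) ≤ n := by exact_mod_cast hn
    linarith
  have hn0 : (0 : ℝ) < n := by linarith
  set u : ℝ := (n : ℝ) ^ (1 - c / 2) with hu
  have a1 : (1 : ℝ) ≤ (n : ℝ) ^ (1 - c) := Real.one_le_rpow hn1 (by linarith)
  have a2 : (n : ℝ) ^ (1 - c) * (n : ℝ) ^ (c / 2) = u := by
    rw [← Real.rpow_add hn0]
    congr 1
    ring
  have a3 : u * (n : ℝ) ^ (c / 2) = n := by
    rw [hu, ← Real.rpow_add hn0]
    ring_nf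
    exact Real.rpow_one _
  have a4 : (n : ℝ) ^ (1 - c) ≤ u := Real.rpow_le_rpow_of_exponent_le hn1 (by linarith)
  have a5 : (n : ℝ) ^ (1 / 2 : ℝ) ≤ u := Real.rpow_le_rpow_of_exponent_le hn1 (by linarith)
  have a6 : (x : ℝ) + 1 ≤ Real.exp (2 * (n : ℝ) ^ (c / 2)) := by
    have e1 : (2 : ℝ) ≤ Real.exp 1 := by
      have := Real.add_one_le_exp (1 : ℝ)
      linarith
    rcases Nat.eq_zero_or_pos x with h0 | h0
    · rw [h0]
      have : (1 : ℝ) ≤ Real.exp (2 * (n : ℝ) ^ (c / 2)) := Real.one_le_exp (by positivity)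
      simpa using this
    · have h0' : (1 : ℝ) ≤ x := by exact_mod_cast h0
      have e2 : (x : ℝ) ≤ Real.exp ((n : ℝ) ^ (c / 2)) := by
        rw [← Real.log_le_iff_le_exp (by linarith)]
        exact hx
      have e3 : Real.exp 1 ≤ Real.exp ((n : ℝ) ^ (c / 2)) := Real.exp_le_exp.2 (by linarith)
      rw [two_mul, Real.exp_add]
      nlinarith
  have a7 : ((x : ℝ) + 1) ^ D ≤ Real.exp (4 * u) := by
    calc ((x : ℝ) + 1) ^ D ≤ (Real.exp (2 * (n : ℝ) ^ (c / 2))) ^ D :=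
          pow_le_pow_left₀ (by positivity) a6 D
      _ = Real.exp (D * (2 * (n : ℝ) ^ (c / 2))) := by rw [← Real.exp_nat_mul]
      _ ≤ Real.exp (4 * u) := by
          apply Real.exp_le_exp.2
          rw [← a2]
          have : (0 : ℝ) ≤ (n : ℝ) ^ (c / 2) := by positivity
          nlinarith
  have a8 : (n : ℝ) + 1 ≤ Real.exp (2 * u) := by
    have e1 : ((n : ℝ) ^ (1 / 2 : ℝ)) ^ 2 = n := by
      rw [← Real.rpow_natCast, ← Real.rpow_mul hn0.le]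
      norm_num
    have e2 := Real.quadratic_le_exp_of_nonneg (x := 2 * (n : ℝ) ^ (1 / 2 : ℝ)) (by positivity)
    have e3 : Real.exp (2 * (n : ℝ) ^ (1 / 2 : ℝ)) ≤ Real.exp (2 * u) :=
      Real.exp_le_exp.2 (by linarith)
    have e4 : (0 : ℝ) ≤ (n : ℝ) ^ (1 / 2 : ℝ) := by positivity
    nlinarith
  have a9 : (F : ℝ) ≤ Real.exp u := hF.trans (Real.exp_le_exp.2 a4)
  calc (F : ℝ) * ((x : ℝ) + 1) ^ D * (n + 1)
      ≤ Real.exp u * Real.exp (4 * u) * Real.exp (2 * u) := by gcongr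
    _ = Real.exp (7 * u) := by
        rw [← Real.exp_add, ← Real.exp_add]
        ring_nf
    _ ≤ Real.exp n := by
        apply Real.exp_le_exp.2
        have : 0 ≤ u := by positivity
        nlinarith

/-- Half of a number minus a lower power. -/
lemma half_part (n : ℕ) (c : ℝ) (hn : 3 ≤ n) (h7 : 7 ≤ (n : ℝ) ^ (c / 2)) :
    49 * (n : ℝ) ^ (1 - c) ≤ n := by
  have hn0 : (0 : ℝ) < n := by
    have : (3 : ℝ) ≤ n := by exact_mod_cast hn
    linarith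
  have e1 : (n : ℝ) ^ (1 - c) * ((n : ℝ) ^ (c / 2) * (n : ℝ) ^ (c / 2)) = n := by
    rw [← Real.rpow_add hn0, ← Real.rpow_add hn0]
    ring_nf
    exact Real.rpow_one _
  have e2 : (0 : ℝ) ≤ (n : ℝ) ^ (1 - c) := by positivity
  have e3 : (49 : ℝ) ≤ (n : ℝ) ^ (c / 2) * (n : ℝ) ^ (c / 2) := by nlinarith
  nlinarith

theorem t_MAIN (h1 : S_CT) (h2 : S_CNT) (h3 : S_EL) (h4 : S_SO) : S_MAIN := by
  refine ⟨80 * Real.exp 1 ^ 2, by positivity, ?_⟩
  intro δ hδ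
  obtain ⟨c, hc, hc1, n₀, hct⟩ := h1 2 δ hδ
  refine ⟨c / 2, half_pos hc, max (max n₀ 3) ⌈(7 : ℝ) ^ (2 / c)⌉₊, ?_⟩
  intro n X m₁ m₂ hn hX hm₁ hm₂
  have hnn : n₀ ≤ n := le_trans (le_trans (le_max_left _ _) (le_max_left _ _)) hn
  have hn3 : 3 ≤ n := le_trans (le_trans (le_max_right _ _) (le_max_left _ _)) hn
  have hn3' : (3 : ℝ) ≤ n := by exact_mod_cast hn3
  have hn1 : (1 : ℝ) ≤ n := by linarith
  have hn0 : (0 : ℝ) < n := by linarith
  have h7 : 7 ≤ (n : ℝ) ^ (c / 2) := by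
    have e1 : (7 : ℝ) ^ (2 / c) ≤ n :=
      (Nat.le_ceil _).trans (by exact_mod_cast (le_max_right _ _).trans hn)
    have e2 : ((7 : ℝ) ^ (2 / c)) ^ (c / 2) = 7 := by
      rw [← Real.rpow_mul (by norm_num)]
      have : 2 / c * (c / 2) = 1 := by field_simp
      rw [this, Real.rpow_one]
    rw [← e2]
    exact Real.rpow_le_rpow (by positivity) e1 (by positivity)
  have h49 := half_part n c hn3 h7
  set M : ℝ := 40 * min (((m₁ : ℝ) * m₂) ^ (2 / 5 : ℝ))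
        (((m₁ : ℝ) ^ 8 * (m₂ : ℝ) ^ 3 * Real.log n ^ 4) ^ (1 / 14 : ℝ)) with hM
  have hlog0 : 0 ≤ Real.log n := Real.log_nonneg hn1
  have hM0 : 0 ≤ M := by
    apply mul_nonneg (by norm_num)
    exact le_min (by positivity) (by positivity)
  set f : Fin 2 → ℝ → ℝ → ℝ := ![fun a b => a + b, fun a b => a * b] with hf
  have hf0 : f 0 = fun a b => a + b := rfl
  have hf1 : f 1 = fun a b => a * b := rfl
  set X0 := X.erase 0 with hX0
  have hlogX0 : Real.log X0.card ≤ (n : ℝ) ^ c := by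
    have e1 : Real.log X0.card ≤ (n : ℝ) ^ (c / 2) := by
      rcases Nat.eq_zero_or_pos X0.card with h0 | h0
      · rw [h0]
        simp
        positivity
      · refine le_trans (Real.log_le_log (by exact_mod_cast h0) ?_) hX
        exact_mod_cast Finset.card_le_card (Finset.erase_subset _ _)
    exact e1.trans (Real.rpow_le_rpow_of_exponent_le hn1 (by linarith))
  have hOp : ∀ i, Op (f i) X0 := by
    intro i
    fin_cases i
    · refine ⟨fun x _ y _ => add_comm x y, fun x _ y _ z _ h => ?_⟩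
      have h' : x + y = x + z := h
      linarith
    · refine ⟨fun x _ y _ => mul_comm x y, fun x hx y _ z _ h => ?_⟩
      have h' : x * y = x * z := h
      exact mul_left_cancel₀ (Finset.ne_of_mem_erase hx) h'
  obtain ⟨F, hF1, hF2, hF3⟩ := hct f X0 n hnn hlogX0 hOp
  set D : ℕ := ⌊(n : ℝ) ^ (1 - c)⌋₊ + 1 with hD
  have hDu : (D : ℝ) ≤ (n : ℝ) ^ (1 - c) + 1 := by
    rw [hD]
    push_cast
    have := Nat.floor_le (show (0 : ℝ) ≤ (n : ℝ) ^ (1 - c) by positivity)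
    linarith
  have h2D : 2 * D ≤ n := by
    have : (2 * D : ℝ) ≤ n := by linarith
    exact_mod_cast this
  have key : ∀ A ∈ (X.powersetCard n).filter (fun A => (A + A).card ≤ m₁ ∧ (A * A).card ≤ m₂),
      ∃ Y ∈ F, (Y.card : ℝ) ≤ M ∧ (A \ Y).card ≤ D ∧ (n : ℝ) ≤ 2 * M := by
    intro A hA
    rw [Finset.mem_filter, Finset.mem_powersetCard] at hA
    obtain ⟨⟨hAX, hAn⟩, hA1, hA2⟩ := hA
    set A0 := A.erase 0 with hA0
    have hA0A : A0 ⊆ A := Finset.erase_subset _ _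
    have hA0X : A0 ⊆ X0 := Finset.erase_subset_erase _ hAX
    have hA0n : n ≤ A0.card + 1 := by
      have : A.card - 1 ≤ A0.card := Finset.pred_card_le_card_erase
      omega
    have hA0n' : A0.card ≤ n := by
      rw [← hAn]
      exact Finset.card_le_card hA0A
    have hW0 : (Finset.image₂ (f 0) A0 A0).card ≤ (A + A).card := by
      apply Finset.card_le_card
      intro z hz
      rw [Finset.mem_image₂] at hz
      obtain ⟨a, ha, b, hb, rfl⟩ := hz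
      exact Finset.add_mem_add (hA0A ha) (hA0A hb)
    have hW1 : (Finset.image₂ (f 1) A0 A0).card ≤ (A * A).card := by
      apply Finset.card_le_card
      intro z hz
      rw [Finset.mem_image₂] at hz
      obtain ⟨a, ha, b, hb, rfl⟩ := hz
      exact Finset.mul_mem_mul (hA0A ha) (hA0A hb)
    have hW : ∀ i, ((Finset.image₂ (f i) A0 A0).card : ℝ) ≤ (n : ℝ) ^ (2 - δ) := by
      intro i
      fin_cases i
      · refine le_trans ?_ hm₁
        exact_mod_cast hW0.trans hA1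
      · refine le_trans ?_ hm₂
        exact_mod_cast hW1.trans hA2
    obtain ⟨Y, hYF, hY1, hY2⟩ := hF3 A0 hA0X hA0n hA0n' hW
    have hY20 := (hY2 0).1
    have hY21 := (hY2 1).1
    rw [hf0] at hY20
    rw [hf1] at hY21
    have hYX : Y ⊆ X0 := hF2 Y hYF
    have h0Y : (0 : ℝ) ∉ Y := fun h => Finset.notMem_erase _ _ (hYX h)
    have hcard : (A0 \ Y).card + (A0 ∩ Y).card = A0.card := Finset.card_sdiff_add_card_inter A0 Y
    have hcard2 : (A0 ∩ Y).card ≤ Y.card := Finset.card_le_card Finset.inter_subset_right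
    have hYn : (n : ℝ) ≤ 2 * Y.card := by
      have e1 : ((A0 \ Y).card : ℝ) + (A0 ∩ Y).card = A0.card := by exact_mod_cast hcard
      have e2 : ((A0 ∩ Y).card : ℝ) ≤ Y.card := by exact_mod_cast hcard2
      have e3 : (n : ℝ) ≤ A0.card + 1 := by exact_mod_cast hA0n
      linarith
    have hYne : Y.Nonempty := by
      rw [← Finset.card_pos]
      have : (0 : ℝ) < Y.card := by linarith
      exact_mod_cast this
    obtain ⟨H, g1, g2, g3, g4, g5⟩ := small h3 h4 Y _ _ h0Y hYne hY20 hY21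
    have hp2 : (Finset.image₂ (fun a b : ℝ => a + b) A0 A0).card ≤ n ^ 2 := by
      refine (Finset.card_image₂_le _ _ _).trans ?_
      rw [pow_two]
      exact Nat.mul_le_mul hA0n' hA0n'
    have hYM : (Y.card : ℝ) ≤ M :=
      bdM n Y.card H _ _ m₁ m₂ (by omega) g1 g2 g3 (hW0.trans hA1) (hW1.trans hA2) hp2 g4 g5
    refine ⟨Y, hYF, hYM, ?_, by linarith⟩
    have e1 : A \ Y ⊆ insert 0 (A0 \ Y) := by
      intro z hz
      rw [Finset.mem_sdiff] at hz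
      rw [Finset.mem_insert, Finset.mem_sdiff]
      by_cases h : z = 0
      · exact Or.inl h
      · exact Or.inr ⟨Finset.mem_erase.2 ⟨h, hz.1⟩, hz.2⟩
    have e2 : (A0 \ Y).card ≤ ⌊(n : ℝ) ^ (1 - c)⌋₊ := Nat.le_floor hY1
    calc (A \ Y).card ≤ (insert 0 (A0 \ Y)).card := Finset.card_le_card e1
      _ ≤ (A0 \ Y).card + 1 := Finset.card_insert_le _ _
      _ ≤ D := by omega
  rcases Finset.eq_empty_or_nonempty
    ((X.powersetCard n).filter (fun A => (A + A).card ≤ m₁ ∧ (A * A).card ≤ m₂)) with hE | ⟨B, hB⟩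
  · rw [hE, Finset.card_empty, Nat.cast_zero]
    have : (0 : ℝ) ≤ min (((m₁ : ℝ) * m₂) ^ (2 / 5 : ℝ))
        (((m₁ : ℝ) ^ 8 * (m₂ : ℝ) ^ 3 * Real.log n ^ 4) ^ (1 / 14 : ℝ)) :=
      le_min (by positivity) (by positivity)
    positivity
  · obtain ⟨_, _, _, _, hn2M⟩ := key B hB
    have hc2 := h2 X (F.filter (fun Y => (Y.card : ℝ) ≤ M)) n D M (by omega) h2D
      (fun Y hY => (Finset.mem_filter.1 hY).2) hn2M
    have hsub : (X.powersetCard n).filter (fun A => (A + A).card ≤ m₁ ∧ (A * A).card ≤ m₂) ⊆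
        (X.powersetCard n).filter
          (fun A => ∃ Y ∈ F.filter (fun Y : Finset ℝ => (Y.card : ℝ) ≤ M), (A \ Y).card ≤ D) := by
      intro A hA
      obtain ⟨Y, hY, hY1, hY2, _⟩ := key A hA
      rw [Finset.mem_filter] at hA ⊢
      exact ⟨hA.1, Y, Finset.mem_filter.2 ⟨hY, hY1⟩, hY2⟩
    have hFc : ((F.filter (fun Y => (Y.card : ℝ) ≤ M)).card : ℝ) ≤
        Real.exp ((n : ℝ) ^ (1 - c)) := by
      refine le_trans ?_ hF1
      exact_mod_cast Finset.card_le_card (Finset.filter_subset _ _)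
    have hexp := exp_part n D X.card _ c hc hc1 hn3 h7 hDu hX hFc
    calc (((X.powersetCard n).filter
            (fun A => (A + A).card ≤ m₁ ∧ (A * A).card ≤ m₂)).card : ℝ)
        ≤ _ := by exact_mod_cast Finset.card_le_card hsub
      _ ≤ _ := hc2
      _ ≤ Real.exp n * (2 * Real.exp 1 * M / n) ^ n := by gcongr
      _ = _ := by
          rw [show Real.exp n = Real.exp 1 ^ n by rw [← Real.exp_nat_mul, mul_one], ← mul_pow]
          congr 1
          rw [hM]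
          ring

end Pool.Agent.N687.SPCMain
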